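import Mathlib

namespace Pool.Agent.H687R2.Pgst

open Polynomial IntermediateField Module

private theorem root_of_factored {m : ℕ} (P : Polynomial ℤ) (θ : Fin m → ℝ)
    (hP : P.map (Int.castRingHom ℝ) = ∏ i, (Polynomial.X - Polynomial.C (θ i)))
    (z : ℂ) (hz : Polynomial.aeval z P = 0) : ∃ k, z = (θ k : ℂ) := by
  have h1 : P.map (Int.castRingHom ℂ) = ∏ i, (Polynomial.X - Polynomial.C ((θ i : ℝ) : ℂ)) := by
    have : P.map (Int.castRingHom ℂ) = (P.map (Int.castRingHom ℝ)).map Complex.ofRealHom := by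
      rw [Polynomial.map_map]
      congr 1
    rw [this, hP, Polynomial.map_prod]
    refine Finset.prod_congr rfl fun i _ => ?_
    simp
  have h2 : (P.map (Int.castRingHom ℂ)).eval z = 0 := by
    rw [Polynomial.eval_map]
    rw [Polynomial.aeval_def] at hz
    simpa using hz
  rw [h1, Polynomial.eval_prod, Finset.prod_eq_zero_iff] at h2
  obtain ⟨k, -, hk⟩ := h2
  refine ⟨k, ?_⟩
  simp only [eval_sub, eval_X, eval_C] at hk
  exact sub_eq_zero.1 hk

private theorem monic_of_factored {m : ℕ} (P : Polynomial ℤ) (θ : Fin m → ℝ)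
    (hP : P.map (Int.castRingHom ℝ) = ∏ i, (Polynomial.X - Polynomial.C (θ i))) :
    P.Monic ∧ P.natDegree = m ∧ ∀ i, Polynomial.aeval (θ i) P = 0 := by
  have hinj : Function.Injective (Int.castRingHom ℝ) := RingHom.injective_int _
  refine ⟨?_, ?_, ?_⟩
  · apply Polynomial.monic_of_injective hinj
    rw [hP]
    exact Polynomial.monic_prod_of_monic _ _ fun i _ => Polynomial.monic_X_sub_C _
  · rw [← Polynomial.natDegree_map_eq_of_injective hinj, hP, Polynomial.natDegree_prod_of_monic]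
    · simp
    · intro i _; exact Polynomial.monic_X_sub_C _
  · intro i
    have : (P.map (Int.castRingHom ℝ)).eval (θ i) = 0 := by
      rw [hP, Polynomial.eval_prod]
      exact Finset.prod_eq_zero (Finset.mem_univ i) (by simp)
    rw [Polynomial.eval_map] at this
    rw [Polynomial.aeval_def]
    simpa using this

private theorem finrank_le_of_factored {m : ℕ} (P : Polynomial ℤ) (θ : Fin m → ℝ)
    (hP : P.map (Int.castRingHom ℝ) = ∏ i, (Polynomial.X - Polynomial.C (θ i))) (i : Fin m) :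
    IsIntegral ℤ (θ i) ∧ finrank ℚ ℚ⟮θ i⟯ ≤ m := by
  obtain ⟨hmon, hdeg, hroot⟩ := monic_of_factored P θ hP
  have hint : IsIntegral ℤ (θ i) := ⟨P, hmon, by simpa [Polynomial.aeval_def] using hroot i⟩
  refine ⟨hint, ?_⟩
  have hintQ : IsIntegral ℚ (θ i) := hint.tower_top
  rw [IntermediateField.adjoin.finrank hintQ]
  have hdvd : minpoly ℚ (θ i) ∣ P.map (Int.castRingHom ℚ) := by
    apply minpoly.dvd
    have h3 := hroot i
    have h4 : Polynomial.aeval (θ i) (P.map (algebraMap ℤ ℚ)) = Polynomial.aeval (θ i) P :=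
      Polynomial.aeval_map_algebraMap ℚ (θ i) P
    rw [h3] at h4
    exact h4
  have hne : P.map (Int.castRingHom ℚ) ≠ 0 := (hmon.map _).ne_zero
  calc (minpoly ℚ (θ i)).natDegree ≤ (P.map (Int.castRingHom ℚ)).natDegree :=
        Polynomial.natDegree_le_of_dvd hdvd hne
    _ = m := by
        rw [Polynomial.natDegree_map_eq_of_injective (RingHom.injective_int _), hdeg]

theorem liouville {m m' : ℕ} (P Q : Polynomial ℤ) (θ : Fin m → ℝ) (θ' : Fin m' → ℝ)
    (hP : P.map (Int.castRingHom ℝ) = ∏ i, (Polynomial.X - Polynomial.C (θ i)))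
    (hQ : Q.map (Int.castRingHom ℝ) = ∏ i, (Polynomial.X - Polynomial.C (θ' i)))
    (R : ℝ) (hR : ∀ i, |θ i| ≤ R) (hR' : ∀ i, |θ' i| ≤ R)
    (N : ℕ) (c : ℕ → ℕ → ℤ) (i : Fin m) (j : Fin m') (B : ℝ) (hB : 1 ≤ B)
    (hcB : ∑ a ∈ Finset.range N, ∑ b ∈ Finset.range N, |(c a b : ℝ)| * R ^ a * R ^ b ≤ B)
    (hx : |∑ a ∈ Finset.range N, ∑ b ∈ Finset.range N, (c a b : ℝ) * θ i ^ a * θ' j ^ b|
      * B ^ (m * m') < 1) :
    ∑ a ∈ Finset.range N, ∑ b ∈ Finset.range N, (c a b : ℝ) * θ i ^ a * θ' j ^ b = 0 := by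
  classical
  by_contra hne
  obtain ⟨hi1, hi2⟩ := finrank_le_of_factored P θ hP i
  obtain ⟨hj1, hj2⟩ := finrank_le_of_factored Q θ' hQ j
  have hi1Q : IsIntegral ℚ (θ i) := hi1.tower_top
  have hj1Q : IsIntegral ℚ (θ' j) := hj1.tower_top
  have : FiniteDimensional ℚ ℚ⟮θ i⟯ := IntermediateField.adjoin.finiteDimensional hi1Q
  have : FiniteDimensional ℚ ℚ⟮θ' j⟯ := IntermediateField.adjoin.finiteDimensional hj1Q
  let K : IntermediateField ℚ ℝ := ℚ⟮θ i⟯ ⊔ ℚ⟮θ' j⟯
  have : FiniteDimensional ℚ K := IntermediateField.finiteDimensional_sup _ _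
  have hfr : finrank ℚ K ≤ m * m' :=
    (IntermediateField.finrank_sup_le ℚ⟮θ i⟯ ℚ⟮θ' j⟯).trans (Nat.mul_le_mul hi2 hj2)
  have hαK : θ i ∈ K := (le_sup_left : ℚ⟮θ i⟯ ≤ K) (IntermediateField.mem_adjoin_simple_self ℚ _)
  have hβK : θ' j ∈ K := (le_sup_right : ℚ⟮θ' j⟯ ≤ K) (IntermediateField.mem_adjoin_simple_self ℚ _)
  let α : K := ⟨θ i, hαK⟩
  let β : K := ⟨θ' j, hβK⟩
  let x : K := ∑ a ∈ Finset.range N, ∑ b ∈ Finset.range N, (c a b : K) * α ^ a * β ^ b
  have hxval : (x : ℝ) = ∑ a ∈ Finset.range N, ∑ b ∈ Finset.range N,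
      (c a b : ℝ) * θ i ^ a * θ' j ^ b := by
    simp [x, α, β]
  have hx0 : x ≠ 0 := by
    intro h
    apply hne
    rw [← hxval, h]; simp
  have hαint : IsIntegral ℤ α := by
    have : IsIntegral ℤ ((algebraMap K ℝ) α) := hi1
    exact (isIntegral_algebraMap_iff (algebraMap K ℝ).injective).1 this
  have hβint : IsIntegral ℤ β := by
    have : IsIntegral ℤ ((algebraMap K ℝ) β) := hj1
    exact (isIntegral_algebraMap_iff (algebraMap K ℝ).injective).1 this
  have hxint : IsIntegral ℤ x := by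
    refine IsIntegral.sum _ fun a _ => IsIntegral.sum _ fun b _ => ?_
    exact ((isIntegral_algebraMap (R := ℤ) (x := c a b)).mul (hαint.pow a)).mul (hβint.pow b)
  -- the norm
  have hnorm_int : IsIntegral ℤ (Algebra.norm ℚ x) := Algebra.isIntegral_norm ℚ hxint
  obtain ⟨n, hn⟩ := IsIntegrallyClosed.isIntegral_iff.1 hnorm_int
  have hn0 : n ≠ 0 := by
    rintro rfl
    have : Algebra.norm ℚ x = 0 := by rw [← hn]; simp
    exact hx0 ((Algebra.norm_eq_zero_iff).1 this)
  have hprod : algebraMap ℚ ℂ (Algebra.norm ℚ x) = ∏ σ : K →ₐ[ℚ] ℂ, σ x :=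
    Algebra.norm_eq_prod_embeddings ℚ ℂ x
  have h1 : (1 : ℝ) ≤ ∏ σ : K →ₐ[ℚ] ℂ, ‖σ x‖ := by
    rw [← norm_prod, ← hprod, ← hn]
    simp only [algebraMap_int_eq, eq_intCast, map_intCast, Complex.norm_intCast]
    rw [← Int.cast_abs]
    exact_mod_cast Int.one_le_abs hn0
  -- each conjugate is bounded by B
  have hbound : ∀ σ : K →ₐ[ℚ] ℂ, ‖σ x‖ ≤ B := by
    intro σ
    obtain ⟨k, hk⟩ := root_of_factored P θ hP (σ α) (by
      have h0 : Polynomial.aeval α P = 0 := by
        have hh := (monic_of_factored P θ hP).2.2 i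
        have : algebraMap K ℝ (Polynomial.aeval α P) = 0 := by
          rw [← Polynomial.aeval_algebraMap_apply]; exact hh
        exact (map_eq_zero_iff _ (algebraMap K ℝ).injective).1 this
      have : Polynomial.aeval (σ.toRingHom.toIntAlgHom α) P = 0 := by
        rw [Polynomial.aeval_algHom_apply, h0, map_zero]
      exact this)
    obtain ⟨l, hl⟩ := root_of_factored Q θ' hQ (σ β) (by
      have h0 : Polynomial.aeval β Q = 0 := by
        have hh := (monic_of_factored Q θ' hQ).2.2 j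
        have : algebraMap K ℝ (Polynomial.aeval β Q) = 0 := by
          rw [← Polynomial.aeval_algebraMap_apply]; exact hh
        exact (map_eq_zero_iff _ (algebraMap K ℝ).injective).1 this
      have : Polynomial.aeval (σ.toRingHom.toIntAlgHom β) Q = 0 := by
        rw [Polynomial.aeval_algHom_apply, h0, map_zero]
      exact this)
    have hσx : σ x = ∑ a ∈ Finset.range N, ∑ b ∈ Finset.range N,
        (c a b : ℂ) * (θ k : ℂ) ^ a * (θ' l : ℂ) ^ b := by
      simp only [x, map_sum, map_mul, map_pow, map_intCast, hk, hl]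
    rw [hσx]
    have hR0 : 0 ≤ R := (abs_nonneg _).trans (hR i)
    refine (norm_sum_le _ _).trans (le_trans (Finset.sum_le_sum fun a _ => ?_) hcB)
    refine (norm_sum_le _ _).trans (Finset.sum_le_sum fun b _ => ?_)
    rw [norm_mul, norm_mul, norm_pow, norm_pow, Complex.norm_intCast, Complex.norm_real,
      Complex.norm_real, Real.norm_eq_abs, Real.norm_eq_abs]
    have ha : |θ k| ^ a ≤ R ^ a := pow_le_pow_left₀ (abs_nonneg _) (hR k) a
    have hb : |θ' l| ^ b ≤ R ^ b := pow_le_pow_left₀ (abs_nonneg _) (hR' l) b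
    gcongr
  -- isolate the inclusion embedding
  let σ₀ : K →ₐ[ℚ] ℂ := (Complex.ofRealAm.restrictScalars ℚ).comp K.val
  have hσ₀ : ‖σ₀ x‖ = |∑ a ∈ Finset.range N, ∑ b ∈ Finset.range N,
      (c a b : ℝ) * θ i ^ a * θ' j ^ b| := by
    rw [← hxval]
    change ‖((x : ℝ) : ℂ)‖ = _
    rw [Complex.norm_real, Real.norm_eq_abs]
  have h2 : ∏ σ : K →ₐ[ℚ] ℂ, ‖σ x‖ ≤ ‖σ₀ x‖ * B ^ (m * m') := by
    rw [← Finset.mul_prod_erase Finset.univ _ (Finset.mem_univ σ₀)]
    refine mul_le_mul_of_nonneg_left ?_ (norm_nonneg _)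
    calc ∏ σ ∈ Finset.univ.erase σ₀, ‖σ x‖ ≤ ∏ σ ∈ Finset.univ.erase σ₀, B :=
          Finset.prod_le_prod (fun _ _ => norm_nonneg _) fun σ _ => hbound σ
      _ = B ^ (Finset.univ.erase σ₀).card := by rw [Finset.prod_const]
      _ ≤ B ^ (m * m') := by
          apply pow_le_pow_right₀ hB
          refine (Finset.card_le_univ _).trans ?_
          rw [AlgHom.card]
          exact hfr
  rw [hσ₀] at h2
  exact absurd (h1.trans h2) (not_le.2 hx)

end Pool.Agent.H687R2.Pgst
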